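import Mathlib
import Pool.Agent.H64.CX.FiB

/-!
# MP_c76564_co: classes with colourings whose pairs of colours have bounded cliquewidth
-/

set_option autoImplicit false

namespace Pool.Agent.Results.MP_c76564_co.LowCliquewidthColourings

open Pool.Agent.H27.LC Pool.Agent.H64.CX

/-- **Theorem.** Let `C` be a hereditary class of finite graphs of unbounded linear cliquewidth, and suppose that for some `m`, `k`
every graph `G` in `C` has a vertex colouring `c` with `m` colours such that for all colours `i`, `j` (also for `i = j`) the
graph formed by the edges of `G` between colour `i` and colour `j` has cliquewidth at most `k` (for `m = 1`: the classes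
of bounded cliquewidth). Then some FO-transduction of `C` is weakly sparse and has unbounded pathwidth. -/
theorem result (C : GClass) (hC : UnboundedLCW C) (m k : ℕ)
    (h : ∀ (n : ℕ) (G : SimpleGraph (Fin n)), C.mem n G → ∃ c : Fin n → Fin m, ∀ i j : Fin m,
      CliquewidthLE (SimpleGraph.fromRel fun u v => G.Adj u v ∧ c u = i ∧ c v = j) k) :
    Q1Conclusion C :=
  low_cw C hC m k h

end Pool.Agent.Results.MP_c76564_co.LowCliquewidthColourings
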